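import Mathlib

set_option autoImplicit false

namespace Pool.Agent.H.MP_c2be6c_an

open Set Filter Topology MeasureTheory Metric Complex
open scoped Real InnerProductSpace

noncomputable section

section
variable {α : Type} [MeasurableSpace α] {ν : Measure α} {b c d : α → ℂ}

open Classical in
/-- multiplication operator -/
def T (ν : Measure α) (b : α → ℂ) : Lp ℂ 2 ν →L[ℂ] Lp ℂ 2 ν :=
  if h : MemLp b ⊤ ν then (ContinuousLinearMap.mul ℂ ℂ).holderL ν ⊤ 2 2 (h.toLp b) else 0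

theorem T_ae (h : MemLp b ⊤ ν) (f : Lp ℂ 2 ν) : T ν b f =ᵐ[ν] fun x => b x * f x := by
  rw [T, dif_pos h]
  filter_upwards [(ContinuousLinearMap.mul ℂ ℂ).coeFn_holder (r := 2) (h.toLp b) f, h.coeFn_toLp] with x p q
  rw [← q]
  exact p

theorem T_mul (h : MemLp b ⊤ ν) (k : MemLp c ⊤ ν) (e : ∀ᵐ x ∂ν, d x = b x * c x) (f : Lp ℂ 2 ν) :
    T ν b (T ν c f) = T ν d f := Lp.ext (by
  filter_upwards [T_ae h (T ν c f), T_ae k f, T_ae ((k.mul' h (r := ⊤)).ae_eq (EventuallyEq.symm e)) f, e]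
    with x p q r s
  rw [p, q, r, s, mul_assoc])

theorem T_add (h : MemLp b ⊤ ν) (k : MemLp c ⊤ ν) (e : ∀ᵐ x ∂ν, d x = b x + c x) (f : Lp ℂ 2 ν) :
    T ν b f + T ν c f = T ν d f := Lp.ext (by
  filter_upwards [Lp.coeFn_add (T ν b f) (T ν c f), T_ae h f, T_ae k f,
    T_ae ((h.add k).ae_eq (EventuallyEq.symm e)) f, e] with x o p q r s
  rw [o, Pi.add_apply, p, q, r, s, add_mul])

theorem T_one (e : ∀ᵐ x ∂ν, b x = 1) (f : Lp ℂ 2 ν) : T ν b f = f := Lp.ext (by
  filter_upwards [T_ae ((memLp_top_const 1).ae_eq (EventuallyEq.symm e)) f, e] with x p q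
  rw [p, q, one_mul])

theorem T_le (h : MemLp b ⊤ ν) (e : ∀ᵐ x ∂ν, ‖b x‖ ≤ 1) (f : Lp ℂ 2 ν) : ‖T ν b f‖ ≤ ‖f‖ :=
  Lp.norm_le_norm_of_ae_le (by
    filter_upwards [T_ae h f, e] with x p q
    rw [p, norm_mul]
    exact mul_le_of_le_one_left (norm_nonneg _) q)

theorem T_lim {b : ℕ → α → ℂ} (h : ∀ n, MemLp (b n) ⊤ ν) (e : ∀ n, ∀ᵐ x ∂ν, ‖b n x‖ ≤ 1) (k : MemLp c ⊤ ν)
    (l : ∀ᵐ x ∂ν, Tendsto (b · x) atTop (𝓝 (c x))) {f : ℕ → Lp ℂ 2 ν} {g : Lp ℂ 2 ν} (t : Tendsto f atTop (𝓝 g)) :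
    Tendsto (fun n => T ν (b n) (f n)) atTop (𝓝 (T ν c g)) := by
  have a : Tendsto (fun n => T ν (b n) g - T ν c g) atTop (𝓝 0) := by
    have u := fun n => ((T_ae (h n) g).and (T_ae k g)).and (Lp.coeFn_sub (T ν (b n) g) (T ν c g))
    have := tendsto_integral_of_dominated_convergence (F := fun n x => ⟪(T ν (b n) g - T ν c g) x,
      (T ν (b n) g - T ν c g) x⟫_ℂ) (f := fun _ => 0) (fun x => 4 * ‖⟪g x, g x⟫_ℂ‖)
      (fun n => (L2.integrable_inner _ _).1) ((L2.integrable_inner g g).norm.const_mul 4) (fun n => by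
        filter_upwards [u n, e n, ae_all_iff.2 e, l] with x ⟨⟨p, q⟩, r⟩ s v w
        have := (norm_sub_le _ _).trans (add_le_add s (le_of_tendsto' w.norm v))
        rw [r, Pi.sub_apply, p, q, ← sub_mul]
        simp only [inner_self_eq_norm_sq_to_K, norm_pow, norm_mul, mul_pow, coe_algebraMap, norm_real, norm_norm]
        gcongr
        nlinarith [norm_nonneg (b n x - c x)]) (by
        filter_upwards [ae_all_iff.2 u, l] with x p q
        have := ((q.sub_const (c x)).mul_const (g x))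
        simpa only [(p _).2, Pi.sub_apply, (p _).1.1, (p 0).1.2, ← sub_mul, sub_self, zero_mul, inner_zero_left]
          using this.inner (𝕜 := ℂ) this)
    rw [tendsto_zero_iff_norm_tendsto_zero]
    simp only [← L2.inner_def] at this
    simpa [inner_self_eq_norm_sq_to_K] using this.norm.sqrt
  convert (squeeze_zero_norm (fun n => T_le (h n) (e n) (f n - g)) (tendsto_iff_norm_sub_tendsto_zero.1 t)).add
    (a.add_const (T ν c g)) using 2 <;> simp

theorem cau {g p : α → ℂ} (hg : Integrable g ν) (hp : Measurable p) {z : ℂ} {δ : ℝ} (h0 : 0 < δ)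
    (h : ∀ a, g a ≠ 0 → δ ≤ ‖p a - z‖) : Integrable (fun a => g a * (p a - z)⁻¹) ν ∧
      ‖∫ a, g a * (p a - z)⁻¹ ∂ν‖ ≤ (∫ a, ‖g a‖ ∂ν) * δ⁻¹ ∧
      DifferentiableAt ℂ (fun z => ∫ a, g a * (p a - z)⁻¹ ∂ν) z := by
  have m : ∀ z, AEStronglyMeasurable (fun a => (p a - z)⁻¹) ν := fun z => (hp.sub_const z).inv.aestronglyMeasurable
  have b : ∀ᵐ a ∂ν, ‖g a * (p a - z)⁻¹‖ ≤ ‖g a‖ * δ⁻¹ := .of_forall fun a => by
    by_cases c : g a = 0
    · simp [c]
    rw [norm_mul, norm_inv]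
    gcongr
    exact h a c
  have i := (hg.norm.mul_const _).mono' (hg.1.mul (m z)) b
  have e : ∀ a, g a ≠ 0 → ∀ w ∈ ball z (δ / 2), δ / 2 ≤ ‖p a - w‖ := fun a c w r => by
    linarith [h a c, norm_sub_le_norm_sub_add_norm_sub (p a) w z, mem_ball_iff_norm.1 r]
  refine ⟨i, integral_mul_const δ⁻¹ (fun a => ‖g a‖) ▸ norm_integral_le_of_norm_le (hg.norm.mul_const _) b,
    (hasDerivAt_integral_of_dominated_loc_of_deriv_le (ball_mem_nhds z (half_pos h0))
      (.of_forall fun w => hg.1.mul (m w)) i (F' := fun w a => g a * (p a - w)⁻¹ ^ 2) (hg.1.mul ((m z).pow 2))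
      (.of_forall fun a w r => ?_) (hg.norm.mul_const ((δ / 2)⁻¹ ^ 2)) (.of_forall fun a w r => ?_)).2.differentiableAt⟩
  all_goals by_cases c : g a = 0
  · simp [c]
  · rw [norm_mul, norm_pow, norm_inv]
    gcongr
    exact e a c w r
  · simp [c, hasDerivAt_const]
  refine ((((hasDerivAt_id w).const_sub (p a)).inv (norm_pos_iff.1 ((half_pos h0).trans_le
    (e a c w r)))).const_mul (g a)).congr_deriv ?_
  simp

end

theorem split {Φ : ℂ → ℂ} {c : ℂ} {r R : ℝ} (h0 : 0 < r) (hR : r ≤ R)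
    (hΦ : ∀ z, r ≤ ‖z - c‖ → ‖z - c‖ ≤ R → DifferentiableAt ℂ Φ z) : ∃ α β : ℂ → ℂ, ∃ C : ℝ,
      (∀ z δ, 0 < δ → r + δ ≤ ‖z - c‖ → DifferentiableAt ℂ α z ∧ ‖α z‖ ≤ C * δ⁻¹) ∧
      (∀ z δ, 0 < δ → ‖z - c‖ + δ ≤ R → DifferentiableAt ℂ β z ∧ ‖β z‖ ≤ C * δ⁻¹) ∧
      ∀ z, r < ‖z - c‖ → ‖z - c‖ < R → β z - α z = Φ z := by
  let g := fun ρ θ => (2 * π * I)⁻¹ * (circleMap 0 ρ θ * I) * Φ (circleMap c ρ θ)
  let A := fun ρ z => ∫ θ in Ioc 0 (2 * π), g ρ θ * (circleMap c ρ θ - z)⁻¹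
  have n : ∀ ρ θ, 0 < ρ → ‖circleMap c ρ θ - c‖ = ρ := fun ρ θ h => by simp [h.le]
  have k : ∀ ρ, r ≤ ρ → ρ ≤ R → Continuous fun θ => Φ (circleMap c ρ θ) := fun ρ p q =>
    continuous_iff_continuousAt.2 fun θ => (hΦ _ (by rwa [n _ _ (h0.trans_le p)])
      (by rwa [n _ _ (h0.trans_le p)])).continuousAt.comp (continuous_circleMap c ρ).continuousAt
  have a : ∀ ρ, r ≤ ρ → ρ ≤ R → ∀ z δ, 0 < δ → δ ≤ |ρ - ‖z - c‖| → DifferentiableAt ℂ (A ρ) z ∧
      ‖A ρ z‖ ≤ (∫ θ in Ioc 0 (2 * π), ‖g ρ θ‖) * δ⁻¹ := fun ρ p q z δ d e =>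
    (cau (Continuous.integrableOn_Ioc (.mul (by fun_prop) (k ρ p q))) (measurable_circleMap c ρ) d fun θ _ =>
      e.trans (by simpa only [n _ θ (h0.trans_le p), sub_sub_sub_cancel_right] using
        abs_norm_sub_norm_le (circleMap c ρ θ - c) (z - c))).2.symm
  refine ⟨A r, A R, max _ _, fun z δ d e => (a r le_rfl hR z δ d (le_abs.2 (.inr (by linarith)))).imp_right
    (·.trans (mul_le_mul_of_nonneg_right (le_max_left ..) (by positivity))), fun z δ d e => (a R hR le_rfl z δ d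
    (le_abs.2 (.inl (by linarith)))).imp_right (·.trans (mul_le_mul_of_nonneg_right (le_max_right ..)
    (by positivity))), fun z p q => ?_⟩
  have e : ∀ ρ, r ≤ ρ → ρ ≤ R → ρ ≠ ‖z - c‖ → ∮ w in C(c, ρ), dslope Φ z w =
      2 * π * I * A ρ z - (∮ w in C(c, ρ), (w - z)⁻¹) * Φ z := fun ρ s t u => by
    have v : ∀ θ, circleMap c ρ θ - z ≠ 0 := fun θ w => u (by rw [← sub_eq_zero.1 w, n _ _ (h0.trans_le s)])
    have := k ρ s t
    simp only [A, g, circleIntegral, ← intervalIntegral.integral_of_le Real.two_pi_pos.le, deriv_circleMap,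
      ← intervalIntegral.integral_const_mul, ← intervalIntegral.integral_mul_const]
    have i : Continuous fun θ => (circleMap c ρ θ - z)⁻¹ := .inv₀ (by fun_prop) v
    rw [← intervalIntegral.integral_sub (Continuous.intervalIntegrable ?_ _ _) (Continuous.intervalIntegrable ?_ _ _)]
    rotate_left
    · exact continuous_const.mul (.mul (.mul (by fun_prop) this) i)
    · exact .mul (.mul (f := fun θ => circleMap 0 ρ θ * I) (by fun_prop) i) continuous_const
    congr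
    ext θ
    rw [dslope_of_ne _ (sub_ne_zero.1 (v θ)), slope_def_field]
    simp only [smul_eq_mul]
    field_simp
  have := circleIntegral_eq_of_differentiable_on_annulus_off_countable (c := c) h0 hR (f := dslope Φ z)
    (countable_singleton z) ((continuousOn_dslope (mem_of_superset ((isOpen_ball.sdiff isClosed_closedBall).mem_nhds
      ⟨mem_ball_iff_norm.2 q, fun h => p.not_ge (mem_closedBall_iff_norm.1 h)⟩)
      (sdiff_subset_sdiff ball_subset_closedBall ball_subset_closedBall))).2 ⟨fun w h => (hΦ w (not_lt.1 fun k =>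
        h.2 (mem_ball_iff_norm.2 k)) (mem_closedBall_iff_norm.1 h.1)).continuousAt.continuousWithinAt,
      hΦ z p.le q.le⟩) fun w h => (differentiableAt_dslope_of_ne h.2).2 (hΦ w (not_lt.1 fun k =>
        h.1.2 (mem_closedBall_iff_norm.2 k.le)) (mem_ball_iff_norm.1 h.1.1).le)
  have v : ∀ w ∈ closedBall c r, DifferentiableAt ℂ (fun w => (w - z)⁻¹) w := fun w h =>
    (differentiableAt_id.sub_const z).inv (sub_ne_zero.2 fun k => p.not_ge (k ▸ mem_closedBall_iff_norm.1 h))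
  rw [e R hR le_rfl q.ne', e r le_rfl hR p.ne, circleIntegral.integral_sub_inv_of_mem_ball (mem_ball_iff_norm.2 q),
    circleIntegral_eq_zero_of_differentiable_on_off_countable h0.le countable_empty
      (fun w h => (v w h).continuousAt.continuousWithinAt) fun w h => v w (ball_subset_closedBall h.1)] at this
  exact mul_left_cancel₀ two_pi_I_ne_zero (by linear_combination this)

end

end Pool.Agent.H.MP_c2be6c_an
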