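import Pool.Agent.H.MP_c2be6c_an.A

set_option autoImplicit false

namespace Pool.Agent.H.MP_c2be6c_an

open Set Filter Topology MeasureTheory Metric Complex
open scoped Real InnerProductSpace

noncomputable section

/-- parameter space -/
abbrev X := ℕ → ℕ → Bool

/-- coin tossing -/
def nu : Measure (ℕ → Bool) := .infinitePi fun _ => (PMF.uniformOfFintype Bool).toMeasure

instance : IsProbabilityMeasure nu := by
  unfold nu
  infer_instance

/-- coin tossing -/
def mu : Measure X := .infinitePi fun _ => nu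

instance : IsProbabilityMeasure mu := by
  unfold mu
  infer_instance

/-- arc length -/
abbrev m : Measure ℝ := volume.restrict (Ioc 0 (2 * π))

theorem exl : ∃ l : X → ℂ, Continuous l ∧ l.Injective ∧ (∀ x, ‖l x‖ = 1) ∧ ∀ᵐ θ ∂m, circleMap 0 1 θ ∉ range l := by
  let e := cantorSpaceHomeomorphNatToCantorSpace.symm.trans cantorSetHomeomorphNatToBool.symm
  have i := injOn_circleMap_of_abs_sub_le (a := 0) (b := 2 * π) (c := 0) one_ne_zero (by simp [abs_of_pos Real.pi_pos])
  rw [uIoc_of_le Real.two_pi_pos.le] at i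
  have a : ∀ x, (e x : ℝ) + 1 ∈ Ioc 0 (2 * π) := fun x => by
    have := cantorSet_subset_unitInterval (e x).2
    constructor <;> linarith [this.1, this.2, Real.pi_gt_three]
  have z : volume cantorSet = 0 := by
    have f := (measure_mono (μ := volume) cantorSet_subset_unitInterval).trans_lt measure_Icc_lt_top
    have p : (· / 3) '' cantorSet = (3 * ·) ⁻¹' cantorSet := by
      ext
      simp only [mem_image, mem_preimage]
      grind
    have q : (fun x => (2 + x) / 3) '' cantorSet = (3 * ·) ⁻¹' ((-2 + ·) ⁻¹' cantorSet) := by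
      ext
      simp only [mem_image, mem_preimage]
      grind
    have := (congrArg volume cantorSet_eq_union_halves).trans_le (measure_union_le _ _)
    rw [p, q, Real.volume_preimage_mul_left three_ne_zero, Real.volume_preimage_mul_left three_ne_zero,
      measure_preimage_add] at this
    lift volume cantorSet to NNReal using f.ne with v
    rw [abs_of_pos (by norm_num), ENNReal.ofReal] at this
    norm_cast at this ⊢
    rify at this
    rw [Real.coe_toNNReal _ (by norm_num)] at this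
    exact NNReal.eq (by linarith [v.coe_nonneg, NNReal.coe_zero])
  refine ⟨fun x => circleMap 0 1 (e x + 1), by fun_prop, fun x y h => e.injective (Subtype.ext
    (add_right_cancel (i (a x) (a y) h))), by simp, ?_⟩
  filter_upwards [ae_restrict_mem measurableSet_Ioc, ae_restrict_of_ae (measure_eq_zero_iff_ae_notMem.1
    ((measure_preimage_add volume (-1) cantorSet).trans z))] with θ p q ⟨x, h⟩
  exact q (by simp [← i (a x) p h])

/-- the singular set -/
def lam : X → ℂ := exl.choose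

theorem lc : Continuous lam := exl.choose_spec.1

theorem ln (x : X) : ‖lam x‖ = 1 := exl.choose_spec.2.2.1 x

/-- the domain -/
def U : Set ℂ := {z | ‖z‖ ≤ 1 ∧ z ∉ range lam}

theorem aU : ∀ᵐ θ ∂m, circleMap 0 1 θ ∈ U := exl.choose_spec.2.2.2.mono fun θ h => ⟨by simp, h⟩

/-- bounded analytic functions -/
def P (ψ : ℂ → ℂ) : Prop := (∀ z ∈ U, DifferentiableAt ℂ ψ z) ∧ ∃ C, ∀ z ∈ U, ‖ψ z‖ ≤ C

theorem P.add {a b : ℂ → ℂ} (p : P a) (q : P b) : P fun z => a z + b z := ⟨fun z h => (p.1 z h).add (q.1 z h),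
  p.2.elim fun C c => q.2.elim fun D d => ⟨C + D, fun z h => norm_add_le_of_le (c z h) (d z h)⟩⟩

theorem P.mul {a b : ℂ → ℂ} (p : P a) (q : P b) : P fun z => a z * b z := ⟨fun z h => (p.1 z h).mul (q.1 z h),
  p.2.elim fun C c => q.2.elim fun D d => ⟨C * D, fun z h => norm_mul_le_of_le (c z h) (d z h)⟩⟩

theorem P.c (a : ℂ) : P fun _ => a := ⟨fun _ _ => differentiableAt_const _, _, fun _ _ => le_rfl⟩

theorem ms {ψ : ℂ → ℂ} (h : ∀ z ∈ U, DifferentiableAt ℂ ψ z) :
    AEStronglyMeasurable (fun θ => ψ (circleMap 0 1 θ)) m := by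
  rw [← Measure.restrict_eq_self_of_ae_mem (s := circleMap 0 1 ⁻¹' (range lam)ᶜ) (aU.mono fun _ a => a.2)]
  exact ContinuousOn.aestronglyMeasurable (fun θ a => ((h _ ⟨by simp, a⟩).continuousAt.comp
    (continuous_circleMap 0 1).continuousAt).continuousWithinAt)
    ((isCompact_range lc).isClosed.isOpen_compl.preimage (continuous_circleMap 0 1)).measurableSet

theorem P.ml {ψ : ℂ → ℂ} (h : P ψ) : MemLp (fun θ => ψ (circleMap 0 1 θ)) ⊤ m :=
  h.2.elim fun C c => memLp_top_of_bound (ms h.1) C (aU.mono fun _ => c _)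

theorem inU {z : ℂ} (h : ‖z‖ < 1) : z ∈ U := ⟨h.le, fun ⟨x, e⟩ => h.ne (e ▸ ln x)⟩

theorem P.mean {ψ : ℂ → ℂ} (h : P ψ) : ∫ θ, ψ (circleMap 0 1 θ) ∂m = 2 * π * ψ 0 := by
  obtain ⟨r, -, a, t⟩ := exists_seq_strictMono_tendsto' (zero_lt_one' ℝ)
  have u : ∀ n, ∀ z ∈ closedBall (0 : ℂ) |r n|, z ∈ U := fun n z p =>
    inU ((mem_closedBall_zero_iff.1 p).trans_lt (abs_lt.2 ⟨by linarith [(a n).1], (a n).2⟩))
  have v := fun n θ => u n _ (sphere_subset_closedBall (circleMap_mem_sphere' 0 (r n) θ))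
  obtain ⟨C, c⟩ := h.2
  refine tendsto_nhds_unique (tendsto_integral_of_dominated_convergence (F := fun n θ => ψ (circleMap 0 (r n) θ))
    (fun _ => C) (fun n => (continuous_iff_continuousAt.2 fun θ => (h.1 _ (v n θ)).continuousAt.comp
      (continuous_circleMap _ _).continuousAt).aestronglyMeasurable) (integrable_const _)
    (fun n => .of_forall fun θ => c _ (v n θ)) (aU.mono fun θ p => (h.1 _ p).continuousAt.tendsto.comp
      ((show Continuous fun r : ℝ => circleMap 0 r θ by unfold circleMap; fun_prop).tendsto 1 |>.comp t)))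
    (tendsto_const_nhds.congr fun n => ?_)
  rw [← circleAverage_of_differentiable_on_off_countable countable_empty (fun z p => (h.1 z
    (u n z p)).continuousAt.continuousWithinAt) fun z p => h.1 z (u n z (ball_subset_closedBall p.1)),
    Real.circleAverage, intervalIntegral.integral_of_le Real.two_pi_pos.le]
  have := Real.pi_ne_zero
  simp
  field_simp

/-- Herglotz integral -/
def s (w : X → ℝ) (z : ℂ) : ℂ := ∫ x, 2 * w x * lam x * (lam x - z)⁻¹ ∂mu - ∫ x, (w x : ℂ) ∂mu

/-- Herglotz kernel -/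
def ka (z : ℂ) (x : X) : ℂ := 2 * lam x * (lam x - z)⁻¹ - 1

/-- singular inner function -/
def ph (w : X → ℝ) (z : ℂ) : ℂ := exp (-s w z)

variable {w v : X → ℝ} {z : ℂ}

theorem sd (h : Integrable w mu) {δ : ℝ} (d : 0 < δ) : ∃ C, ∀ z, (∀ x, w x ≠ 0 → δ ≤ ‖lam x - z‖) →
    Integrable (fun x => 2 * w x * lam x * (lam x - z)⁻¹) mu ∧ DifferentiableAt ℂ (s w) z ∧ ‖s w z‖ ≤ C :=
  ⟨_, fun z a => by
    have := cau ((h.ofReal.const_mul 2).mul_bdd lc.aestronglyMeasurable (.of_forall fun x => (ln x).le))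
      lc.measurable d fun x b => a x fun c => b (by simp [c])
    exact ⟨this.1, this.2.2.sub_const _, norm_sub_le_of_le this.2.1 le_rfl⟩⟩

theorem far (h : z ∈ U) : ∃ δ > 0, ∀ x, δ ≤ ‖lam x - z‖ := by
  obtain ⟨δ, d, e⟩ := Metric.isOpen_iff.1 (isCompact_range lc).isClosed.isOpen_compl z h.2
  exact ⟨δ, d, fun x => not_lt.1 fun a => e (mem_ball_iff_norm.2 a) ⟨x, rfl⟩⟩

theorem kc (h : z ∈ U) (p : ENNReal) : MemLp (ka z) p mu := by
  have := lc
  exact (show Continuous (ka z) from ((continuous_const.mul lc).mul ((lc.sub continuous_const).inv₀ fun x a =>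
    h.2 ⟨x, sub_eq_zero.1 a⟩)).sub continuous_const).memLp_of_hasCompactSupport (.of_compactSpace _)

theorem ki (h : Integrable w mu) (u : z ∈ U) : Integrable (fun x => w x * ka z x) mu :=
  h.ofReal.mul_of_top_left (kc u ⊤)

theorem se (h : Integrable w mu) (u : z ∈ U) : s w z = ∫ x, w x * ka z x ∂mu := by
  obtain ⟨δ, d, e⟩ := far u
  refine (integral_sub ((sd h d).choose_spec z fun x _ => e x).1 h.ofReal).symm.trans (congrArg _ (funext fun x => ?_))
  simp only [ka, coe_algebraMap]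
  ring

theorem pd (h : Integrable w mu) (z : ℂ) (u : z ∈ U) : DifferentiableAt ℂ (ph w) z :=
  (far u).elim fun _ d => ((sd h d.1).choose_spec z fun x _ => d.2 x).2.1.neg.cexp

theorem padd (h : Integrable w mu) (k : Integrable v mu) (u : z ∈ U) : ph (w + v) z = ph w z * ph v z := by
  rw [ph, ph, ph, ← exp_add, se (h.add k) u, se h u, se k u, ← neg_add, ← integral_add (ki h u) (ki k u)]
  simp [add_mul]

theorem pn (h : Integrable w mu) (u : z ∈ U) :
    ‖ph w z‖ = Real.exp (-∫ x, w x * ((1 - ‖z‖ ^ 2) / ‖lam x - z‖ ^ 2) ∂mu) := by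
  rw [ph, norm_exp, neg_re, se h u, ← RCLike.re_to_complex, ← integral_re (ki h u)]
  congr
  ext x
  have a : lam x - z ≠ 0 := fun a => u.2 ⟨x, sub_eq_zero.1 a⟩
  have b := normSq_eq_norm_sq (lam x)
  have c := (normSq_pos.2 a).ne'
  simp only [ka, RCLike.re_to_complex, re_ofReal_mul, sub_re, one_re, ← div_eq_mul_inv, div_re, ← normSq_eq_norm_sq]
  congr 1
  field_simp
  simp [normSq_apply, ln] at b ⊢
  linarith

theorem Pp (h : Integrable w mu) (p : 0 ≤ w) : P (ph w) := ⟨pd h, 1, fun z u => by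
  rw [pn h u, Real.exp_le_one_iff, neg_nonpos]
  exact integral_nonneg fun x => mul_nonneg (p x) (div_nonneg (by nlinarith [u.1, norm_nonneg z]) (sq_nonneg _))⟩

theorem p1 (h : Integrable w mu) : ∀ᵐ θ ∂m, ‖ph w (circleMap 0 1 θ)‖ = 1 := aU.mono fun θ u => by simp [pn h u]

/-- coprime -/
def Cop (w v : X → ℝ) : Prop := ∃ a b, P a ∧ P b ∧ ∀ z ∈ U, a z * ph w z + b z * ph v z = 1

theorem pw {f g : ℂ → ℂ} {c : ℂ} {δ C D : ℝ} (d : 0 < δ)
    (p : ∀ z ∈ U, ‖z - c‖ ≤ 3 * δ → DifferentiableAt ℂ f z ∧ ‖f z‖ ≤ C)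
    (q : ∀ z ∈ U, 3 * δ ≤ ‖z - c‖ → DifferentiableAt ℂ g z ∧ ‖g z‖ ≤ D)
    (e : ∀ z, 2 * δ < ‖z - c‖ → ‖z - c‖ < 4 * δ → f z = g z) : P fun z => if ‖z - c‖ ≤ 3 * δ then f z else g z := by
  have k : Continuous fun z : ℂ => ‖z - c‖ := by fun_prop
  refine ⟨fun z u => (le_total ‖z - c‖ (3 * δ)).elim (fun a => (p z u a).1.congr_of_eventuallyEq ?_) fun a =>
    (q z u a).1.congr_of_eventuallyEq ?_, max C D, fun z u => ?_⟩
  · filter_upwards [k.continuousAt.eventually_lt continuousAt_const (show _ < 4 * δ by linarith)] with y b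
    exact ite_eq_left_iff.2 fun o => (e y (by linarith) b).symm
  · filter_upwards [continuousAt_const.eventually_lt k.continuousAt (show 2 * δ < _ by linarith)] with y b
    exact ite_eq_right_iff.2 fun o => e y b (by linarith)
  beta_reduce
  split_ifs with a
  · exact le_max_of_le_left (p z u a).2
  exact le_max_of_le_right (q z u (not_le.1 a).le).2

theorem base (h : Integrable w mu) (k : Integrable v mu) (p : 0 ≤ w) (q : 0 ≤ v) {c : ℂ} {δ : ℝ} (d : 0 < δ)
    (a : ∀ x, w x ≠ 0 → ‖lam x - c‖ ≤ δ) (b : ∀ x, v x ≠ 0 → 5 * δ ≤ ‖lam x - c‖) : Cop w v := by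
  obtain ⟨A, hA⟩ := sd h d
  obtain ⟨B, hB⟩ := sd k d
  replace hA := fun z (e : 2 * δ ≤ ‖z - c‖) => (hA z fun x o => by
    linarith [a x o, norm_sub_le_norm_sub_add_norm_sub z (lam x) c, norm_sub_rev z (lam x)]).2
  replace hB := fun z (e : ‖z - c‖ ≤ 4 * δ) => (hB z fun x o => by
    linarith [b x o, norm_sub_le_norm_sub_add_norm_sub (lam x) z c]).2
  obtain ⟨α, β, C, i, j, e⟩ := split (Φ := fun z => exp (s w z + s v z)) (c := c) (r := 2 * δ) (R := 4 * δ)
    (by positivity) (by linarith) fun z i j => ((hA z i).1.add (hB z j).1).cexp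
  obtain ⟨_, o⟩ := (Pp h p).2
  obtain ⟨_, r⟩ := (Pp k q).2
  have n : ∀ {y : ℂ} {A : ℝ}, ‖y‖ ≤ A → ‖exp y‖ ≤ Real.exp A := fun a =>
    (norm_exp_le_exp_norm _).trans (Real.exp_le_exp.2 a)
  refine ⟨_, _, pw (f := fun z => β z * ph v z) (g := fun z => exp (s w z) + α z * ph v z) d
    (fun z u t => ⟨(j z δ d (by linarith)).1.mul (pd k z u), norm_mul_le_of_le (j z δ d (by linarith)).2 (r z u)⟩)
    (fun z u t => ⟨(hA z (by linarith)).1.cexp.add ((i z δ d (by linarith)).1.mul (pd k z u)), norm_add_le_of_le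
      (n (hA z (by linarith)).2) (norm_mul_le_of_le (i z δ d (by linarith)).2 (r z u))⟩) fun z t y => ?_,
    pw (f := fun z => exp (s v z) - β z * ph w z) (g := fun z => -(α z * ph w z)) d
    (fun z u t => ⟨(hB z (by linarith)).1.cexp.sub ((j z δ d (by linarith)).1.mul (pd h z u)), norm_sub_le_of_le
      (n (hB z (by linarith)).2) (norm_mul_le_of_le (j z δ d (by linarith)).2 (o z u))⟩)
    (fun z u t => ⟨((i z δ d (by linarith)).1.mul (pd h z u)).neg, (norm_neg _).trans_le
      (norm_mul_le_of_le (i z δ d (by linarith)).2 (o z u))⟩) fun z t y => ?_, fun z _ => ?_⟩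
  · rw [eq_add_of_sub_eq (e z t y)]
    simp only [ph, exp_add, exp_neg]
    field_simp
  · rw [eq_add_of_sub_eq (e z t y)]
    simp only [ph, exp_add, exp_neg]
    field_simp
    ring
  split_ifs <;> simp only [ph, exp_neg] <;> field_simp <;> ring

/-- indicator weights -/
abbrev ind (E : Set X) : X → ℝ := E.indicator 1

theorem ii {E : Set X} (h : MeasurableSet E) : Integrable (ind E) mu := (integrable_const 1).indicator h

theorem i0 (E : Set X) : 0 ≤ ind E := fun _ => indicator_nonneg (fun _ _ => zero_le_one) _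

theorem isp (E S : Set X) : ind E = ind (E ∩ S) + ind (E \ S) := funext fun x => by
  by_cases x ∈ E <;> by_cases x ∈ S <;> simp [*]

theorem cop {E F : Set X} (hE : IsCompact E) (hF : IsCompact F) (d : Disjoint E F) : Cop (ind E) (ind F) := by
  have f := hF.measurableSet
  refine (hE.induction_on (p := fun S => ∃ S' ⊇ S, MeasurableSet S' ∧ ∀ E ⊆ S', MeasurableSet E →
    Cop (ind E) (ind F)) ⟨∅, Subset.rfl, .empty, fun E a _ => ⟨_, _, .c 1, .c 0, fun z _ => by
      simp [subset_empty_iff.1 a, ph, s]⟩⟩ (fun _ _ a ⟨S, b, c⟩ => ⟨S, a.trans b, c⟩) (fun _ _ ⟨S, a, b, c⟩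
      ⟨R, i, j, k⟩ => ⟨S ∪ R, union_subset_union a i, b.union j, fun E o p => ?_⟩) fun x a => ?_).elim
    fun S h => h.2.2 E h.1 hE.measurableSet
  · obtain ⟨a, e, p1, p2, p3⟩ := c _ inter_subset_right (p.inter b)
    obtain ⟨g, l, q1, q2, q3⟩ := k (E \ S) (sdiff_subset_iff.2 o) (p.diff b)
    have u := Pp (ii (p.inter b)) (i0 _)
    have v := Pp (ii (p.diff b)) (i0 _)
    refine ⟨_, _, p1.mul q1, ((p1.mul u).mul q2).add (p2.mul ((q1.mul v).add (q2.mul (Pp (ii f) (i0 _))))),
      fun z t => ?_⟩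
    rw [isp E S, padd (ii (p.inter b)) (ii (p.diff b)) t]
    linear_combination (g z * ph (ind (E \ S)) z + l z * ph (ind F) z) * p3 z t + q3 z t
  obtain ⟨δ, p, q⟩ := Metric.isOpen_iff.1 (hF.image lc).isClosed.isOpen_compl (lam x) fun ⟨y, b, c⟩ =>
    d.notMem_of_mem_left a (exl.choose_spec.2.1 c ▸ b)
  refine ⟨_, nhdsWithin_le_nhds (lc.continuousAt.preimage_mem_nhds (closedBall_mem_nhds _ (show 0 < δ / 5 by
    positivity))), _, Subset.rfl, lc.measurable measurableSet_closedBall, fun E b c => base (ii c) (ii f) (i0 _) (i0 _)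
    (c := lam x) (show 0 < δ / 5 by positivity) (fun y o => mem_closedBall_iff_norm.1 (b (mem_of_indicator_ne_zero o)))
    fun y o => not_lt.1 fun t => q (mem_ball_iff_norm.2 (by linarith)) ⟨y, mem_of_indicator_ne_zero o, rfl⟩⟩

end

end Pool.Agent.H.MP_c2be6c_an
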