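import Pool.Agent.H.MP_c2be6c_an.B

set_option autoImplicit false

namespace Pool.Agent.H.MP_c2be6c_an

open Set Filter Topology MeasureTheory Metric Complex
open scoped Real InnerProductSpace

noncomputable section

/-- the constant function -/
def one {α : Type} [MeasurableSpace α] (ν : Measure α) [IsFiniteMeasure ν] : Lp ℂ 2 ν := Lp.const 2 ν 1

theorem oae {α : Type} [MeasurableSpace α] (ν : Measure α) [IsFiniteMeasure ν] : ∀ᵐ x ∂ν, one ν x = 1 :=
  Lp.coeFn_const 2 ν 1

theorem io {α : Type} [MeasurableSpace α] {ν : Measure α} [IsFiniteMeasure ν] {b : α → ℂ} (h : MemLp b ⊤ ν)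
    (g : Lp ℂ 2 ν) : ⟪one ν, T ν b g⟫_ℂ = ∫ x, b x * g x ∂ν := by
  rw [L2.inner_def]
  refine integral_congr_ae ?_
  filter_upwards [oae ν, T_ae h g] with x p q
  simp [p, q]

/-- multiplication on the circle -/
abbrev M (ψ : ℂ → ℂ) := T m fun θ => ψ (circleMap 0 1 θ)

/-- Hardy space -/
def H : Submodule ℂ (Lp ℂ 2 m) := ⨅ ψ : {ψ // P ψ ∧ ψ 0 = 0}, (innerSL ℂ (one m) ∘L M ψ).ker

theorem mH {f : Lp ℂ 2 m} : f ∈ H ↔ ∀ ψ, P ψ → ψ 0 = 0 → ⟪one m, M ψ f⟫_ℂ = 0 := by simp [H]

theorem Hc : IsClosed (H : Set (Lp ℂ 2 m)) := by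
  rw [H, Submodule.coe_iInf]
  exact isClosed_iInter fun _ => ContinuousLinearMap.isClosed_ker _

theorem HP {a : ℂ → ℂ} {f : Lp ℂ 2 m} (p : P a) (h : f ∈ H) : M a f ∈ H := mH.2 fun ψ q r => by
  have e : M ψ (M a f) = M (fun z => ψ z * a z) f := T_mul q.ml p.ml (.of_forall fun _ => rfl) f
  rw [e]
  exact mH.1 h _ (q.mul p) (by simp [r])

theorem H1 : one m ∈ H := mH.2 fun ψ q r => by
  rw [io q.ml, integral_congr_ae (g := fun θ => ψ (circleMap 0 1 θ)), q.mean, r, mul_zero]
  filter_upwards [oae m] with x p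
  simp [p]

variable {w v : X → ℝ} {f : Lp ℂ 2 m} {E F : Set X}

theorem Vm (h : Integrable w mu) : MemLp (fun θ => ph w (circleMap 0 1 θ)) ⊤ m :=
  memLp_top_of_bound (ms (pd h)) 1 ((p1 h).mono fun _ => le_of_eq)

theorem VV (h : Integrable w mu) (k : Integrable v mu) (f : Lp ℂ 2 m) : M (ph w) (M (ph v) f) = M (ph (w + v)) f :=
  T_mul (Vm h) (Vm k) (aU.mono fun _ => padd h k) f

theorem V0 (f : Lp ℂ 2 m) : M (ph 0) f = f := T_one (by simp [ph, s]) f

theorem Vlim {w : ℕ → X → ℝ} (h : ∀ n, Integrable (w n) mu) (k : Integrable v mu) (l : ∀ z ∈ U,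
    Tendsto (fun n => ∫ x, w n x * ka z x ∂mu) atTop (𝓝 (∫ x, v x * ka z x ∂mu))) {f : ℕ → Lp ℂ 2 m} {g : Lp ℂ 2 m}
    (t : Tendsto f atTop (𝓝 g)) : Tendsto (fun n => M (ph (w n)) (f n)) atTop (𝓝 (M (ph v) g)) :=
  T_lim (fun n => Vm (h n)) (fun n => (p1 (h n)).mono fun _ => le_of_eq) (Vm k) (aU.mono fun _ u => by
    simpa only [ph, se (h _) u, se k u] using (l _ u).neg.cexp) t

/-- range of an inner function -/
def R (w : X → ℝ) : Submodule ℂ (Lp ℂ 2 m) := H.comap (M (ph (-w))).toLinearMap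

theorem mR : f ∈ R w ↔ M (ph (-w)) f ∈ H := .rfl

theorem Rc (w : X → ℝ) : IsClosed (R w : Set (Lp ℂ 2 m)) := Hc.preimage (M _).continuous

theorem R0 : f ∈ R 0 ↔ f ∈ H := by rw [mR, neg_zero, V0]

theorem VR {u : X → ℝ} (h : Integrable w mu) (k : Integrable u mu) (e : u = w + v) (p : f ∈ R v) :
    M (ph w) f ∈ R u := by
  rw [mR, VV k.neg h, e]
  simpa using mR.1 p

theorem RP {a : ℂ → ℂ} (h : Integrable w mu) (p : P a) (q : f ∈ R w) : M a f ∈ R w := by
  rw [mR, T_mul (Vm h.neg) p.ml (.of_forall fun _ => rfl), ← T_mul p.ml (Vm h.neg) (.of_forall fun _ => mul_comm ..)]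
  exact HP p q

theorem Rm (h : Integrable w mu) (k : Integrable v mu) (e : w ≤ᵐ[mu] v) : R v ≤ R w := fun f p => by
  have := HP (a := ph (v - w)) ⟨pd (k.sub h), 1, fun z u => by
    rw [pn (k.sub h) u, Real.exp_le_one_iff, neg_nonpos]
    exact integral_nonneg_of_ae (e.mono fun x a => mul_nonneg (sub_nonneg.2 a)
      (div_nonneg (by nlinarith [u.1, norm_nonneg z]) (sq_nonneg _)))⟩ p
  rwa [ContinuousLinearMap.coe_coe, VV (k.sub h) k.neg, show v - w + -v = -w by abel] at this

theorem si (h : MeasurableSet E) (g : X → ℂ) : ∫ x, ind E x * g x ∂mu = ∫ x in E, g x ∂mu := by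
  rw [← integral_indicator h]
  congr
  ext x
  by_cases x ∈ E <;> simp [*]

theorem approx (h : MeasurableSet E) (k : MeasurableSet F) (d : Disjoint E F) : ∃ a b : ℕ → ℂ → ℂ,
    (∀ n, P (a n) ∧ P (b n)) ∧ ∀ f,
      Tendsto (fun n => M (a n) (M (ph (ind E)) f) + M (b n) (M (ph (ind F)) f)) atTop (𝓝 f) := by
  have c : ∀ E, MeasurableSet E → ∃ K : ℕ → Set X, (∀ n, K n ⊆ E ∧ IsCompact (K n)) ∧ ∀ z ∈ U,
      Tendsto (fun n => ∫ x, ind (E \ K n) x * ka z x ∂mu) atTop (𝓝 0) := fun E h => by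
    choose K a b c using fun n : ℕ => h.exists_isCompact_sdiff_lt (measure_ne_top mu E)
      (ENNReal.inv_ne_zero.2 (ENNReal.natCast_ne_top n))
    refine ⟨K, fun n => ⟨a n, b n⟩, fun z u => ?_⟩
    simp only [si (h.diff (b _).measurableSet)]
    exact (memLp_one_iff_integrable.1 (kc u 1)).tendsto_setIntegral_nhds_zero (tendsto_of_tendsto_of_tendsto_of_le_of_le
      tendsto_const_nhds ENNReal.tendsto_inv_nat_nhds_zero (fun _ => zero_le) fun n => (c n).le)
  obtain ⟨K, p, q⟩ := c E h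
  obtain ⟨L, r, t⟩ := c F k
  choose a b i j e using fun n => cop (p n).2 (r n).2 (d.mono (p n).1 (r n).1)
  have x := fun n => ii (h.diff (p n).2.measurableSet)
  have y := fun n => ii (k.diff (r n).2.measurableSet)
  have A := fun n => (i n).mul (Pp (y n) (i0 _))
  have B := fun n => (j n).mul (Pp (x n) (i0 _))
  refine ⟨_, _, fun n => ⟨A n, B n⟩, fun f => ?_⟩
  convert Vlim (fun n => (x n).add (y n)) (integrable_zero ..) (fun z u => by
    simpa [add_mul, integral_add (ki (x _) u) (ki (y _) u)] using (q z u).add (t z u))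
    (tendsto_const_nhds (x := f)) using 2 with n
  · rw [T_mul (A n).ml (Vm (ii h)) (.of_forall fun _ => rfl), T_mul (B n).ml (Vm (ii k)) (.of_forall fun _ => rfl)]
    refine T_add ((A n).mul (Pp (ii h) (i0 _))).ml ((B n).mul (Pp (ii k) (i0 _))).ml (aU.mono fun θ u => ?_) f
    rw [isp E (K n), isp F (L n), inter_eq_right.2 (p n).1, inter_eq_right.2 (r n).1, padd (x n) (y n) u,
      padd (ii (p n).2.measurableSet) (x n) u, padd (ii (r n).2.measurableSet) (y n) u]
    linear_combination -ph (ind (E \ K n)) _ * ph (ind (F \ L n)) _ * e n _ u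
  rw [V0]

theorem meet (h : MeasurableSet E) (k : MeasurableSet F) (p : f ∈ R (ind E)) (q : f ∈ R (ind F)) :
    f ∈ R (ind (E ∪ F)) := by
  obtain ⟨a, b, c, d⟩ := approx (h.diff k) (k.diff h) disjoint_sdiff_sdiff
  refine Hc.mem_of_tendsto (d _) (.of_forall fun n => H.add_mem (HP (c n).1 ?_) (HP (c n).2 ?_))
  · rwa [ContinuousLinearMap.coe_coe, VV (ii (h.diff k)) (ii (h.union k)).neg, show ind (E \ F) + -ind (E ∪ F) = -ind F
      from funext fun x => by by_cases x ∈ E <;> by_cases x ∈ F <;> simp [*]]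
  rwa [ContinuousLinearMap.coe_coe, VV (ii (k.diff h)) (ii (h.union k)).neg, show ind (F \ E) + -ind (E ∪ F) = -ind E
    from funext fun x => by by_cases x ∈ E <;> by_cases x ∈ F <;> simp [*]]

theorem join (h : MeasurableSet E) (k : MeasurableSet F) {W : Submodule ℂ (Lp ℂ 2 m)} (c : IsClosed (W : Set (Lp ℂ 2 m)))
    (p : R (ind E) ≤ W) (q : R (ind F) ≤ W) : R (ind (E ∩ F)) ≤ W := fun f r => by
  obtain ⟨a, b, c', d⟩ := approx (h.diff k) (k.diff h) disjoint_sdiff_sdiff
  exact c.mem_of_tendsto (d _) (.of_forall fun n => W.add_mem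
    (p (RP (ii h) (c' n).1 (VR (ii (h.diff k)) (ii h) (by rw [add_comm, ← isp]) r)))
    (q (RP (ii k) (c' n).2 (VR (ii (k.diff h)) (ii k) (by rw [add_comm, inter_comm, ← isp]) r))))

theorem nt : one m ∉ R (ind univ) := fun h => by
  have i := ii (E := univ) .univ
  have a : ‖ph (ind univ) 0‖ < 1 := by
    rw [pn i (inU (by simp))]
    simp [ln]
  have q := (Pp i (i0 _)).add (.c (-ph (ind univ) 0))
  generalize ind univ = w at *
  have := mH.1 h _ q (by simp)
  rw [io q.ml, integral_congr_ae (g := fun θ => 1 - ph w 0 * ph (-w) (circleMap 0 1 θ)), integral_sub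
    (integrable_const _) (((Vm i.neg).integrable le_top).const_mul _), sub_eq_zero] at this
  · have b := norm_integral_le_of_norm_le_const (μ := m) (C := ‖ph w 0‖) (f := fun θ => ph w 0 * ph (-w)
      (circleMap 0 1 θ)) ((p1 i.neg).mono fun θ a => by simp [a])
    rw [← this] at b
    simp [Real.pi_pos.le, abs_of_pos Real.pi_pos] at b
    nlinarith [Real.pi_pos]
  filter_upwards [T_ae (Vm i.neg) (one m), oae m, aU] with θ a b u
  have := padd i i.neg u
  rw [add_neg_cancel, show ph 0 _ = 1 by simp [ph, s]] at this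
  rw [ContinuousLinearMap.coe_coe, a, b]
  linear_combination -this

theorem weak {θ : ℝ} (p : θ ∈ Ioo 0 1) {A : ℕ → Set X} (h : ∀ n, MeasurableSet (A n)) (a : ∀ n, mu.real (A n) = θ)
    (b : ∀ n k, n ≠ k → mu.real (A n ∩ A k) = θ * θ) {g : X → ℂ} (hg : MemLp g 2 mu) :
    Tendsto (fun n => ∫ x, ind (A n) x * g x ∂mu) atTop (𝓝 (∫ x, θ * g x ∂mu)) := by
  have c : 0 < θ - θ * θ := by nlinarith [p.1, p.2]
  let u := fun n x => (((ind (A n) x - θ) / √(θ - θ * θ) : ℝ) : ℂ)
  have i := fun n => (memLp_top_const (1 : ℝ) (μ := mu)).indicator (h n)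
  have m : ∀ n, MemLp (u n) 2 mu := fun n => (((i n).sub (memLp_const θ)).mul_const _).ofReal.mono_exponent le_top
  have o : Orthonormal ℂ fun n => (m n).toLp := orthonormal_iff_ite.2 fun n k => by
    rw [L2.inner_def, integral_congr_ae (g := fun x => (((ind (A n ∩ A k) x - θ * ind (A n) x - θ * ind (A k) x + θ * θ) /
      (θ - θ * θ) : ℝ) : ℂ)), integral_complex_ofReal, integral_div, integral_add, integral_sub, integral_sub,
      integral_const_mul, integral_const_mul, integral_indicator_one (h n), integral_indicator_one (h k),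
      integral_indicator_one ((h n).inter (h k)), a, a, integral_const, probReal_univ]
    · split_ifs with e
      · rw [e, inter_self, a, ofReal_eq_one, div_eq_one_iff_eq c.ne']
        simp
      simp [b n k e]
    · exact ii ((h n).inter (h k))
    · exact (ii (h n)).const_mul _
    · exact (ii ((h n).inter (h k))).sub ((ii (h n)).const_mul _)
    · exact (ii (h k)).const_mul _
    · exact ((ii ((h n).inter (h k))).sub ((ii (h n)).const_mul _)).sub ((ii (h k)).const_mul _)
    · exact integrable_const _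
    filter_upwards [(m n).coeFn_toLp, (m k).coeFn_toLp] with x r s
    rw [r, s, RCLike.inner_apply, conj_ofReal, ← ofReal_mul, div_mul_div_comm, Real.mul_self_sqrt c.le]
    congr 2
    by_cases x ∈ A n <;> by_cases x ∈ A k <;> simp [*] <;> ring
  have t := (o.inner_products_summable hg.toLp).tendsto_atTop_zero.sqrt
  simp only [Real.sqrt_sq (norm_nonneg _), Real.sqrt_zero, ← tendsto_zero_iff_norm_tendsto_zero] at t
  have j := hg.integrable one_le_two
  convert (t.const_mul (√(θ - θ * θ) : ℂ)).add_const (∫ x, θ * g x ∂mu) using 2 with n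
  · rw [L2.inner_def, ← integral_const_mul, ← integral_add ((L2.integrable_inner _ _).const_mul _) (j.const_mul _)]
    refine integral_congr_ae ?_
    filter_upwards [(m n).coeFn_toLp, hg.coeFn_toLp] with x r s
    have := ofReal_ne_zero.2 (Real.sqrt_pos.2 c).ne'
    rw [r, s, RCLike.inner_apply, conj_ofReal]
    push_cast
    generalize (√(θ - θ * θ) : ℂ) = t at *
    field_simp
    ring
  simp

theorem indep (k : ℕ) : ∃ A : ℕ → Set X, (∀ n, MeasurableSet (A n)) ∧ (∀ n, mu.real (A n) = 2⁻¹ ^ k) ∧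
    ∀ n j, n ≠ j → mu.real (A n ∩ A j) = 2⁻¹ ^ k * 2⁻¹ ^ k := by
  let B : Set (ℕ → Bool) := pi (Finset.range k) fun _ => {true}
  have b : MeasurableSet B := .pi (Finset.countable_toSet _) fun _ _ => .singleton _
  have c : nu B = 2⁻¹ ^ k := by simp [B, nu, Measure.infinitePi_pi, -Finset.coe_range]
  refine ⟨fun n => pi ({n} : Finset ℕ) fun _ => B, fun n => .pi (Finset.countable_toSet _) fun _ _ => b,
    fun n => ?_, fun n j e => ?_⟩
  · rw [Measure.real, mu, Measure.infinitePi_pi _ fun _ _ => b]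
    simp [c]
  rw [← union_pi, ← Finset.coe_union, Measure.real, mu, Measure.infinitePi_pi _ fun _ _ => b]
  simp [c, e, sq]

end

end Pool.Agent.H.MP_c2be6c_an
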