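import Pool.Agent.H.MP_c2be6c_an.C

set_option autoImplicit false

namespace Pool.Agent.H.MP_c2be6c_an

open Set Filter Topology MeasureTheory Metric Complex
open scoped Real InnerProductSpace

noncomputable section

instance (w : X → ℝ) : CompleteSpace (R w) := (Rc w).completeSpace_coe

/-- model space -/
def K : Submodule ℂ (Lp ℂ 2 m) := H ⊓ (R (ind univ))ᗮ

instance : CompleteSpace K := (Hc.inter (Submodule.isClosed_orthogonal _)).completeSpace_coe

/-- the Hilbert space -/
abbrev G := WithLp 2 (K × Lp ℂ 2 mu)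

/-- multiplication by an indicator -/
abbrev J (E : Set X) := T mu fun x => ind E x

/-- the lattice -/
def N (E : Set X) : Submodule ℂ G := (R (ind E)).comap (K.subtype ∘ₗ (WithLp.fstL 2 ℂ _ _).toLinearMap) ⊓
  (J E).ker.comap (WithLp.sndL 2 ℂ _ _).toLinearMap

/-- first embedding -/
def e1 : Lp ℂ 2 m →L[ℂ] G :=
  (WithLp.prodContinuousLinearEquiv 2 ℂ _ _).symm.toContinuousLinearMap ∘L .inl ℂ _ _ ∘L K.orthogonalProjectionOnto

/-- second embedding -/
def e2 : Lp ℂ 2 mu →L[ℂ] G := (WithLp.prodContinuousLinearEquiv 2 ℂ _ _).symm.toContinuousLinearMap ∘L .inr ℂ _ _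

variable {E F : Set X} {x : G}

theorem ee (x : G) : e1 x.fst + e2 x.snd = x := by
  refine (WithLp.prodContinuousLinearEquiv 2 ℂ _ _).injective ?_
  simp [e1, e2]
  rfl

theorem mN : x ∈ N E ↔ (x.fst : Lp ℂ 2 m) ∈ R (ind E) ∧ J E x.snd = 0 := .rfl

theorem Nc (E : Set X) : IsClosed (N E : Set G) :=
  ((Rc _).preimage (K.subtypeL ∘L WithLp.fstL 2 ℂ _ _).continuous).inter
    ((J E).isClosed_ker.preimage (WithLp.sndL 2 ℂ _ _).continuous)

theorem Jb (E : Set X) : ∀ᵐ x ∂mu, ‖(ind E x : ℂ)‖ ≤ 1 := .of_forall fun x => by by_cases x ∈ E <;> simp [*]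

theorem Jm (h : MeasurableSet E) : MemLp (fun x => (ind E x : ℂ)) ⊤ mu :=
  memLp_top_of_bound (continuous_ofReal.comp_aestronglyMeasurable (ii h).1) 1 (Jb E)

theorem mJ (h : MeasurableSet E) {g : Lp ℂ 2 mu} : J E g = 0 ↔ ∀ᵐ x ∂mu, x ∈ E → g x = 0 := by
  rw [Lp.eq_zero_iff_ae_eq_zero]
  refine eventually_congr ((T_ae (Jm h) g).mono fun x a => ?_)
  by_cases x ∈ E <;> simp [*]

theorem JJ (h : MeasurableSet E) (g : Lp ℂ 2 mu) : J E (J Eᶜ g) = 0 :=
  (mJ h).2 ((T_ae (Jm h.compl) g).mono fun x a b => by simp [a, b])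

theorem im (h : E ≤ᵐ[mu] F) : ind E ≤ᵐ[mu] ind F := h.mono fun x a => by
  by_cases b : x ∈ E
  · simp [b, show x ∈ F from a b]
  simpa [b] using i0 F x

theorem RH (h : MeasurableSet E) : R (ind E) ≤ H := fun _ a => R0.1 (Rm (integrable_zero ..) (ii h) (.of_forall (i0 E)) a)

theorem Q1 {u : Lp ℂ 2 m} (a : u ∈ H) : ((e1 u).fst : Lp ℂ 2 m) = u - (R (ind univ)).starProjection u :=
  Submodule.eq_starProjection_of_mem_orthogonal ⟨H.sub_mem a (RH .univ (Submodule.starProjection_apply_mem ..)),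
    Submodule.sub_starProjection_mem_orthogonal _⟩ (by
      rw [sub_sub_cancel]
      exact Submodule.orthogonal_le inf_le_right (Submodule.le_orthogonal_orthogonal _
        (Submodule.starProjection_apply_mem ..)))

theorem m1 (h : MeasurableSet E) {u : Lp ℂ 2 m} (a : u ∈ R (ind E)) : e1 u ∈ N E :=
  mN.2 ⟨Q1 (RH h a) ▸ sub_mem a (Rm (ii h) (ii .univ) (im (subset_univ E).eventuallyLE)
    (Submodule.starProjection_apply_mem ..)), by simp [e1]⟩

theorem m2 {g : Lp ℂ 2 mu} (a : J E g = 0) : e2 g ∈ N E := mN.2 ⟨by simp [e2], a⟩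

theorem Nle (h : MeasurableSet E) (k : MeasurableSet F) : N F ≤ N E ↔ E ≤ᵐ[mu] F := by
  refine ⟨fun a => ?_, fun a x b => mN.2 ⟨Rm (ii h) (ii k) (im a) b.1, (mJ h).2 ?_⟩⟩
  · filter_upwards [(mJ h).1 (a (m2 (JJ k (one mu)))).2, T_ae (Jm k.compl) (one mu), oae mu] with x b c d e
    by_contra f
    simpa [d, show x ∉ F from f] using c.symm.trans (b e)
  filter_upwards [a, (mJ k).1 b.2] with y c d e using d (c e)

theorem N0 : N ∅ = ⊤ := eq_top_iff.2 fun x _ => mN.2 ⟨R0.2 x.fst.2.1 |> fun a => by simpa only [ind, indicator_empty'] using a, (mJ .empty).2 (by simp)⟩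

theorem N1 : N univ = ⊥ := eq_bot_iff.2 fun x a => by
  have b : x.fst = 0 := Subtype.ext (inner_self_eq_zero.1 (x.fst.2.2 _ a.1))
  have c : x.snd = 0 := (T_one (by simp) _).symm.trans a.2
  rw [← ee x, b, c]
  simp

theorem Ni (h : MeasurableSet E) (k : MeasurableSet F) : N E ⊓ N F = N (E ∪ F) :=
  le_antisymm (fun x a => mN.2 ⟨meet h k a.1.1 a.2.1, (mJ (h.union k)).2 (by
    filter_upwards [(mJ h).1 a.1.2, (mJ k).1 a.2.2] with y b c d using d.elim b c)⟩) (le_inf
    ((Nle h (h.union k)).2 subset_union_left.eventuallyLE) ((Nle k (h.union k)).2 subset_union_right.eventuallyLE))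

theorem Ns (h : MeasurableSet E) (k : MeasurableSet F) : (N E ⊔ N F).topologicalClosure = N (E ∩ F) := by
  refine le_antisymm (Submodule.topologicalClosure_minimal _ (sup_le ((Nle (h.inter k) h).2
    inter_subset_left.eventuallyLE) ((Nle (h.inter k) k).2 inter_subset_right.eventuallyLE)) (Nc _)) fun x a => ?_
  have l := (N E ⊔ N F).le_topologicalClosure
  rw [← ee x, ← T_one (b := fun _ => 1) (by simp) x.snd, ← T_add (Jm h.compl) (Jm h) (.of_forall fun y => by
    by_cases y ∈ E <;> simp [*]), map_add]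
  refine add_mem (join h k (W := (N E ⊔ N F).topologicalClosure.comap e1.toLinearMap)
    ((Submodule.isClosed_topologicalClosure _).preimage e1.continuous) (fun u b => l (le_sup_left (a := N E) (m1 h b)))
    (fun u b => l (le_sup_right (a := N E) (m1 k b))) a.1) (l (Submodule.add_mem_sup (m2 (JJ h _)) (m2 ((mJ k).2 ?_))))
  filter_upwards [T_ae (Jm h) x.snd, (mJ (h.inter k)).1 (mN.1 a).2] with y b c d
  by_cases e : y ∈ E
  · simp [b, c ⟨e, d⟩]
  simp [b, e]

theorem cv {w : ℕ → X → ℝ} {v : X → ℝ} (h : ∀ n, Integrable (w n) mu) (b : ∀ n x, |w n x| ≤ 1)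
    (l : ∀ᵐ x ∂mu, Tendsto (w · x) atTop (𝓝 (v x))) (z : ℂ) (u : z ∈ U) :
    Tendsto (fun n => ∫ x, w n x * ka z x ∂mu) atTop (𝓝 (∫ x, v x * ka z x ∂mu)) :=
  tendsto_integral_of_dominated_convergence _ (fun n => (ki (h n) u).1) (memLp_one_iff_integrable.1 (kc u 1)).norm
    (fun n => .of_forall fun x => by simpa using mul_le_of_le_one_left (norm_nonneg _) (b n x))
    (l.mono fun _ a => a.ofReal.mul_const _)

theorem sc {W : Submodule ℂ G} (c : IsClosed (W : Set G)) (h : ∀ s : Finset G, ∀ ε : ℝ, 0 < ε →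
    ∃ E, MeasurableSet E ∧ ∀ x ∈ s, ∀ y z : G, y ∈ N E → x - y ∈ (N E)ᗮ → z ∈ W → x - z ∈ Wᗮ → ‖y - z‖ < ε) :
    ∃ E, MeasurableSet E ∧ N E = W := by
  classical
  have := c.completeSpace_coe
  have := fun E => (Nc E).completeSpace_coe
  let g := (W.starProjection (e2 (one mu))).snd
  let E := g ⁻¹' {0}
  have mE : MeasurableSet E := (Lp.stronglyMeasurable g).measurable (.singleton 0)
  have key : ∀ x : G, ∃ A : ℕ → Set X, (∀ n, MeasurableSet (A n)) ∧ (∀ᵐ y ∂mu, ∀ᶠ n in atTop, y ∈ A n ↔ y ∈ E) ∧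
      Tendsto (fun n => (N (A n)).starProjection x) atTop (𝓝 (W.starProjection x)) := fun x => by
    choose A a b using fun n : ℕ => h {x, e2 (one mu)} (1 / (n + 1)) (by positivity)
    have t : ∀ y ∈ ({x, e2 (one mu)} : Finset G), Tendsto (fun n => (N (A n)).starProjection y) atTop
        (𝓝 (W.starProjection y)) := fun y p => tendsto_iff_norm_sub_tendsto_zero.2 (squeeze_zero (fun _ => norm_nonneg _)
      (fun n => (b n y p _ _ (Submodule.starProjection_apply_mem ..) (Submodule.sub_starProjection_mem_orthogonal _)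
        (Submodule.starProjection_apply_mem ..) (Submodule.sub_starProjection_mem_orthogonal _)).le)
      tendsto_one_div_add_atTop_nhds_zero_nat)
    have q : ∀ n, (N (A n)).starProjection (e2 (one mu)) = e2 (J (A n)ᶜ (one mu)) := fun n =>
      Submodule.eq_starProjection_of_mem_orthogonal (m2 (JJ (a n) _)) fun u p => by
        rw [← map_sub, WithLp.prod_inner_apply, show (e2 _).ofLp.1 = 0 from rfl, inner_zero_right, zero_add,
          L2.inner_def]
        refine integral_eq_zero_of_ae ?_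
        filter_upwards [(mJ (a n)).1 (mN.1 p).2, Lp.coeFn_sub (one mu) (J (A n)ᶜ (one mu)), T_ae (Jm (a n).compl) (one mu)]
          with y i j k
        change ⟪u.snd y, (one mu - J (A n)ᶜ (one mu)) y⟫_ℂ = 0
        by_cases o : y ∈ A n
        · simp [i o]
        rw [j, Pi.sub_apply, k]
        simp [o]
    have r := ((WithLp.sndL 2 ℂ _ _).continuous.tendsto _).comp (t (e2 (one mu)) (by simp))
    simp only [Function.comp_def, q] at r
    obtain ⟨φ, p, s⟩ := (tendstoInMeasure_of_tendsto_Lp r).exists_seq_tendsto_ae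
    refine ⟨A ∘ φ, fun n => a _, ?_, (t x (by simp)).comp p.tendsto_atTop⟩
    filter_upwards [s, ae_all_iff.2 fun n => T_ae (Jm (a n).compl) (one mu), oae mu] with y i j k
    change Tendsto (fun n => J (A (φ n))ᶜ (one mu) y) _ (𝓝 (g y)) at i
    simp only [j, k, mul_one] at i
    by_cases o : g y = 0
    · filter_upwards [i.norm.eventually (gt_mem_nhds (show _ < 1 by simp [o]))] with n l
      exact iff_of_true (by_contra fun m => by simp [show y ∉ A (φ n) from m] at l) o
    filter_upwards [i.eventually_ne o] with n l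
    exact iff_of_false (fun m => by simp [show y ∈ A (φ n) from m] at l) o
  have lim : ∀ {A : ℕ → Set X} {E}, (∀ᵐ y ∂mu, ∀ᶠ n in atTop, y ∈ A n ↔ y ∈ E) →
      ∀ᵐ y ∂mu, Tendsto (fun n => ind (A n) y) atTop (𝓝 (ind E y)) := fun h => h.mono fun y a =>
    tendsto_const_nhds.congr' (a.mono fun n b => by simp only [ind, indicator, b])
  have ib : ∀ (A : Set X) x, |ind A x| ≤ 1 := fun A x => by by_cases x ∈ A <;> simp [*]
  refine ⟨E, mE, le_antisymm ?_ fun x p => ?_⟩
  · rw [← Submodule.orthogonal_le_orthogonal_iff]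
    intro x p v q
    obtain ⟨A, a, b, t⟩ := key x
    have u := (e1.continuous.tendsto _).comp (Vlim (fun n => ii (a n)) (ii mE) (cv (fun n => ii (a n)) (fun n => ib _)
      (lim b)) (tendsto_const_nhds (x := M (ph (-ind E)) v.fst)))
    have w := (e2.continuous.tendsto _).comp (T_lim (fun n => Jm (a n).compl) (fun n => Jb _) (Jm mE.compl)
      ((lim (b.mono fun _ c => c.mono fun _ => not_congr)).mono fun _ c => c.ofReal) (tendsto_const_nhds (x := v.snd)))
    have i := (u.add w).inner (𝕜 := ℂ) (t.const_sub x)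
    rw [VV (ii mE) (ii mE).neg, add_neg_cancel, V0, show J Eᶜ v.snd = v.snd from Lp.ext (by
      filter_upwards [T_ae (Jm mE.compl) v.snd, (mJ mE).1 (mN.1 q).2] with y c d
      by_cases e : y ∈ E <;> simp [*]), ee, (Submodule.starProjection_apply_eq_zero_iff _).2 p, sub_zero] at i
    exact tendsto_nhds_unique i (tendsto_const_nhds.congr fun n => (Submodule.sub_starProjection_mem_orthogonal x _
      (add_mem (m1 (a n) (VR (ii (a n)) (ii (a n)) (add_zero _).symm (R0.2 q.1))) (m2 (JJ (a n) _)))).symm)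
  obtain ⟨A, a, b, t⟩ := key x
  rw [Submodule.starProjection_eq_self_iff.2 p] at t
  have u := fun n => (N (A n)).starProjection_apply_mem x
  exact mN.2 ⟨Hc.mem_of_tendsto (Vlim (fun n => (ii (a n)).neg) (ii mE).neg (cv (fun n => (ii (a n)).neg)
    (fun n y => (abs_neg _).trans_le (ib _ y)) ((lim b).mono fun _ c => c.neg))
    (((K.subtypeL ∘L WithLp.fstL 2 ℂ _ _).continuous.tendsto _).comp t)) (.of_forall fun n => (u n).1),
    tendsto_nhds_unique (T_lim (fun n => Jm (a n)) (fun n => Jb _) (Jm mE) ((lim b).mono fun _ c => c.ofReal)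
      (((WithLp.sndL 2 ℂ _ _).continuous.tendsto _).comp t)) (tendsto_const_nhds.congr fun n => (u n).2.symm)⟩

theorem inv (A : G →L[ℂ] G) (h : ∀ E, MeasurableSet E → ∀ x ∈ N E, A x ∈ N E) (p : x.snd = 0) : (A x).snd = 0 := by
  let C := WithLp.sndL 2 ℂ _ _ ∘L A ∘L e1
  have f := x.fst.2.1
  have i : ∀ θ : ℝ, Integrable (fun _ : X => θ) mu := fun _ => integrable_const _
  have a : ∀ k : ℕ, C (M (ph fun _ => 2⁻¹ ^ (k + 1)) x.fst) = 0 := fun k => by
    obtain ⟨B, b, c, d⟩ := indep (k + 1)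
    have θ : (2⁻¹ : ℝ) ^ (k + 1) ∈ Ioo 0 1 := ⟨by positivity, pow_lt_one₀ (by norm_num) (by norm_num) (by simp)⟩
    have t := (C.continuous.tendsto _).comp (Vlim (fun n => ii (b n)) (i _) (fun z u => weak θ b c d (kc u 2))
      (tendsto_const_nhds (x := x.fst.1)))
    set g := C (M (ph fun _ => 2⁻¹ ^ (k + 1)) x.fst)
    have u : Tendsto (fun n => J (B n) g) atTop (𝓝 0) := squeeze_zero_norm (fun n => by
      rw [← sub_zero (J _ g), ← (mN.1 (h _ (b n) _ (m1 (b n) (VR (ii (b n)) (ii (b n)) (add_zero _).symm (R0.2 f))))).2,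
        ← map_sub]
      exact T_le (Jm (b n)) (Jb _) _) (tendsto_iff_norm_sub_tendsto_zero.1 t |>.congr fun n => norm_sub_rev ..)
    refine Lp.eq_zero_iff_ae_eq_zero.2 (Lp.ae_eq_zero_of_forall_setIntegral_eq_zero g two_ne_zero
      ENNReal.ofNat_ne_top (fun _ _ _ => ((Lp.memLp g).integrable one_le_two).integrableOn) fun s o _ => ?_)
    have v := tendsto_nhds_unique (weak θ b c d (Lp.memLp (J s g))) (((tendsto_const_nhds (x := one mu)).inner
      (((J s).continuous.tendsto _).comp u)).congr fun n => by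
        rw [Function.comp, T_mul (Jm o) (Jm (b n)) (.of_forall fun _ => mul_comm ..),
          ← T_mul (Jm (b n)) (Jm o) (.of_forall fun _ => rfl), io (Jm (b n))])
    rw [map_zero, inner_zero_right, integral_const_mul, integral_congr_ae (T_ae (Jm o) g), si o] at v
    exact (mul_eq_zero.1 v).resolve_left (ofReal_ne_zero.2 θ.1.ne')
  have t := (C.continuous.tendsto _).comp (Vlim (fun k => i (2⁻¹ ^ (k + 1))) (integrable_zero ..) (cv (fun _ => i _)
    (fun k _ => abs_pow (2⁻¹ : ℝ) _ ▸ pow_le_one₀ (abs_nonneg _) (by norm_num [abs_of_pos])) (.of_forall fun _ =>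
      (tendsto_pow_atTop_nhds_zero_of_lt_one (by norm_num) (by norm_num)).comp (tendsto_add_atTop_nat 1)))
    (tendsto_const_nhds (x := x.fst.1)))
  rw [V0] at t
  rw [← ee x, p, map_zero, add_zero]
  exact tendsto_nhds_unique t (tendsto_const_nhds.congr fun k => (a k).symm)

theorem ne (h : MeasurableSet E) : N E ≠ (WithLp.sndL 2 ℂ _ _).ker := fun e => by
  have a : N E ≤ ⊥ := N1 ▸ (Nle .univ h).2 (by
    filter_upwards [Lp.eq_zero_iff_ae_eq_zero.1 (show J Eᶜ (one mu) = 0 from e.le (m2 (JJ h (one mu)))),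
      T_ae (Jm h.compl) (one mu), oae mu] with y b c d _
    by_contra f
    simpa [d, show y ∉ E from f] using c.symm.trans b)
  have b := Q1 H1
  rw [show e1 (one m) = 0 from a (e.ge (by simp [e1])), eq_comm] at b
  exact nt (sub_eq_zero.1 b ▸ Submodule.starProjection_apply_mem ..)

end

end Pool.Agent.H.MP_c2be6c_an
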